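import Pool.Agent.Helper28.TK.StV
import Pool.Agent.Helper28.TK.M_RgU3

/-!
# Project TK, low levels, module F0: level three

Adapted from `Helper94/THV/M_F0.lean`.
-/

set_option autoImplicit false

namespace Pool.Agent.Helper99.TKV

open Pool.Agent.Helper28.TH (OkH ALPlus)

open Pool.Agent.Helper28.TK Pool.Agent.Helper28.WK Pool.Agent.Helper28.LV Pool.Agent.Helper28.TK
open Pool.Agent.Helper14.CV

private theorem nc_congr {R : Type} [AddCommGroup R] (a : ℕ) (c : ℤ) {G H : ℤ → ℤ → R}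
    (h : EqC G H) : EqC (Nc a c G) (Nc a c H) := by
  obtain ⟨k, hk⟩ := h
  refine ⟨∑ j ∈ Finset.range (a + 2), ((-1 : ℤ) ^ j * ((a + 1).choose j : ℤ)) • k,
    fun x y hxy => ?_⟩
  unfold Nc
  rw [← Finset.sum_add_distrib]
  refine Finset.sum_congr rfl fun j _ => ?_
  rw [hk, smul_add]
  by_cases hx : x = 0
  · right
    subst hx
    rcases hxy with h | h
    · exact absurd rfl h
    · simpa using h
  · exact Or.inl hx

private theorem nc_add {R : Type} [AddCommGroup R] (a : ℕ) (c : ℤ) (G H : ℤ → ℤ → R) :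
    Nc a c (G + H) = Nc a c G + Nc a c H := by
  funext x y
  simp only [Nc, Pi.add_apply, smul_add, Finset.sum_add_distrib]

private theorem nc_smul {R : Type} [AddCommGroup R] (a : ℕ) (c k : ℤ) (G : ℤ → ℤ → R) :
    Nc a c (k • G) = k • Nc a c G := by
  funext x y
  simp only [Nc, Pi.smul_apply, Finset.smul_sum]
  refine Finset.sum_congr rfl fun j _ => ?_
  rw [smul_comm]

/-- A potential with constant reductions is constant. -/
private theorem const_of_red {p : ℕ} [Fact p.Prime] (ψ : ℤ → ℤ → ℤ_[p])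
    (h : ∀ M : ℕ, 3 ≤ M → EqC (redP M ψ) 0) : EqC ψ 0 := by
  refine ⟨ψ 1 0, fun x y hxy => ?_⟩
  simp only [Pi.zero_apply, zero_add]
  have key : ∀ M : ℕ, 3 ≤ M → PadicInt.toZModPow M (ψ x y - ψ 1 0) = 0 := by
    intro M hM
    obtain ⟨k, hk⟩ := h M hM
    have h1 := hk x y hxy
    have h2 := hk 1 0 (Or.inl one_ne_zero)
    simp only [redP, Pi.zero_apply, zero_add] at h1 h2
    rw [map_sub, h1, h2, sub_self]
  by_contra hne
  have hne' : ψ x y - ψ 1 0 ≠ 0 := sub_ne_zero.2 hne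
  have h3 := key ((ψ x y - ψ 1 0).valuation + 3) (by omega)
  have h4 : ψ x y - ψ 1 0 ∈ Ideal.span {(p : ℤ_[p]) ^ ((ψ x y - ψ 1 0).valuation + 3)} := by
    rw [← PadicInt.ker_toZModPow, RingHom.mem_ker]
    exact h3
  rw [PadicInt.mem_span_pow_iff_le_valuation _ hne'] at h4
  omega

theorem hF0 : ZF0 := by
  intro hMS hRgT hRgU hUI p hp κ a G ψ hp2 hκ hψ hlev hu hNcG hNb hNcu hS
  have := hp
  have hp0 : (p : ℤ) ≠ 0 := by exact_mod_cast hp.out.ne_zero
  have hpQ : (p : ℚ_[p]) ≠ 0 := by exact_mod_cast hp.out.ne_zero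
  have hp3 : IsCoprime (3 : ℤ) (p : ℤ) := by
    have h1 : Nat.Coprime 3 p := (Nat.coprime_primes Nat.prime_three hp.out).2 (Ne.symm hp2)
    exact_mod_cast Nat.isCoprime_iff_coprime.2 h1
  -- the constant of `hu`
  obtain ⟨k, hk⟩ := id hu
  have hk' : ∀ x y : ℤ, (x ≠ 0 ∨ y ≠ 0) → ψ (p * x) y = ψ x y + κ • G x y + k := by
    intro x y hxy
    have := hk x y hxy
    simp only [act, Pi.sub_apply, Pi.smul_apply, zero_mul, add_zero, zero_add, one_mul] at this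
    rw [sub_eq_iff_eq_add] at this
    rw [this]; abel
  -- `Nc` kills `ψ`
  have hNc : ∀ c : ℤ, (3 : ℤ) ∣ c → EqC (Nc a c ψ) 0 := by
    intro c hc
    have h1 := nc_congr a c hu
    have h2 : Nc a c (act p 0 0 1 ψ - ψ) = Nc a c (act p 0 0 1 ψ) + -(Nc a c ψ) := by
      rw [sub_eq_add_neg, nc_add]
      congr 1
      have := nc_smul a c (-1) ψ
      rwa [neg_one_smul, neg_one_smul] at this
    rw [h2, nc_smul] at h1
    have h3 : EqC (κ • Nc a c G) 0 := by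
      have := (hNcG c hc).smul κ
      rwa [smul_zero] at this
    have h4 := (h1.trans h3).sub (hNcu c hc)
    have h5 : Nc a c (act p 0 0 1 ψ) + -(Nc a c ψ) - Nc a c (act p 0 0 1 ψ) = -(Nc a c ψ) := by
      abel
    rw [h5, sub_zero] at h4
    have h6 := h4.neg
    rwa [neg_neg, neg_zero] at h6
  obtain ⟨F, hF⟩ := hMS p hp a ψ hp2 hψ (fun M hM => ⟨(hlev M hM).1, fun α β γ δ hd hb hc =>
    (hlev M hM).2 α β γ δ hd hb ((pow_dvd_pow (p : ℤ) (by omega)).trans hc)⟩) hNb hNc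
  -- (R)
  have hR : ∀ v1 v2 w1 w2 : ℤ, (v1 ≠ 0 ∨ v2 ≠ 0) → (w1 ≠ 0 ∨ w2 ≠ 0) →
      ∀ α β γ δ : ℚ_[p], F (p * v1) v2 (p * w1) w2 α (p * β) ((p : ℚ_[p])⁻¹ * γ) δ =
        F v1 v2 w1 w2 (-γ) (-δ) α β := by
    intro v1 v2 w1 w2 hv hw
    have hpv : (p : ℤ) * v1 ≠ 0 ∨ v2 ≠ 0 := by
      rcases hv with h | h
      · exact Or.inl (mul_ne_zero hp0 h)
      · exact Or.inr h
    have hpw : (p : ℤ) * w1 ≠ 0 ∨ w2 ≠ 0 := by
      rcases hw with h | h
      · exact Or.inl (mul_ne_zero hp0 h)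
      · exact Or.inr h
    obtain ⟨hA, hA'⟩ := hF (p * v1) v2 (p * w1) w2 hpv hpw
    obtain ⟨hB, hB'⟩ := hF v1 v2 w1 w2 hv hw
    have r1 := (hRgT p hp a _ hA).2.1 (p : ℚ_[p]) (p : ℚ_[p])⁻¹
    have r2 := (hRgT p hp a _ hB).2.2.1
    have r3 := (hRgT p hp a _ r1).2.2.2.1 _ 1 (-1) r2
    have hbi := (hRgT p hp a _ hB).2.2.2.2
    have h0 := hRgU3 p hp a 1 _ r3 (by
      intro α β γ δ hd h2γ _ _ hγ _
      obtain ⟨γ', rfl⟩ := hγ
      rw [pow_one] at hd h2γ ⊢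
      have h2γ' : (3 : ℤ) ∣ γ' := hp3.dvd_of_dvd_mul_left h2γ
      have hdA : α * δ - (p * β) * γ' = 1 := by linear_combination hd
      have e1 := hA' α (p * β) γ' δ (Or.inl ⟨hdA, h2γ'⟩)
      rw [hdA] at e1
      have hdB : -(p * γ') * (3 * β) - (-δ) * (3 * α) = 3 := by linear_combination 3 * hd
      have e2 := hB' (-(p * γ')) (-δ) (3 * α) (3 * β)
        (Or.inr ⟨hdB, (dvd_neg.2 (h2γ'.mul_left _)), Dvd.intro _ rfl, Dvd.intro _ rfl⟩)
      rw [hdB] at e2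
      have e3 : (p : ℚ_[p])⁻¹ * (((p : ℤ) * γ' : ℤ) : ℚ_[p]) = (γ' : ℚ_[p]) := by
        push_cast
        field_simp
      have nz1 : α * w1 + β * w2 ≠ 0 ∨ (p * γ') * w1 + δ * w2 ≠ 0 :=
        ne_zero_of_det (by rw [hd]; exact one_ne_zero) hw
      have nz2 : α * v1 + β * v2 ≠ 0 ∨ (p * γ') * v1 + δ * v2 ≠ 0 :=
        ne_zero_of_det (by rw [hd]; exact one_ne_zero) hv
      have e4 := hS.diff nz1 nz2
      simp only [act] at e4
      have e5 : ψ (α * (p * w1) + p * β * w2) (γ' * (p * w1) + δ * w2) -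
          ψ (α * (p * v1) + p * β * v2) (γ' * (p * v1) + δ * v2) =
          ψ (-(p * γ') * w1 + -δ * w2) (3 * α * w1 + 3 * β * w2) -
          ψ (-(p * γ') * v1 + -δ * v2) (3 * α * v1 + 3 * β * v2) := by
        have t1 : ψ (α * (p * w1) + p * β * w2) (γ' * (p * w1) + δ * w2) =
            ψ (p * (α * w1 + β * w2) + 0 * (p * γ' * w1 + δ * w2))
              (0 * (α * w1 + β * w2) + 1 * (p * γ' * w1 + δ * w2)) := by
          congr 1 <;> ring
        have t2 : ψ (α * (p * v1) + p * β * v2) (γ' * (p * v1) + δ * v2) =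
            ψ (p * (α * v1 + β * v2) + 0 * (p * γ' * v1 + δ * v2))
              (0 * (α * v1 + β * v2) + 1 * (p * γ' * v1 + δ * v2)) := by
          congr 1 <;> ring
        have t3 : ψ (-(p * γ') * w1 + -δ * w2) (3 * α * w1 + 3 * β * w2) =
            ψ (0 * (α * w1 + β * w2) + -1 * (p * γ' * w1 + δ * w2))
              (3 * (α * w1 + β * w2) + 0 * (p * γ' * w1 + δ * w2)) := by
          congr 1 <;> ring
        have t4 : ψ (-(p * γ') * v1 + -δ * v2) (3 * α * v1 + 3 * β * v2) =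
            ψ (0 * (α * v1 + β * v2) + -1 * (p * γ' * v1 + δ * v2))
              (3 * (α * v1 + β * v2) + 0 * (p * γ' * v1 + δ * v2)) := by
          congr 1 <;> ring
        rw [t1, t2, t3, t4, e4]
      have e6 : F (p * v1) v2 (p * w1) w2 (α : ℚ_[p]) ((p : ℚ_[p]) * (β : ℚ_[p])) (γ' : ℚ_[p])
          (δ : ℚ_[p]) = F v1 v2 w1 w2 (-(((p : ℤ) * γ' : ℤ) : ℚ_[p])) (-(δ : ℚ_[p]))
            (α : ℚ_[p]) (β : ℚ_[p]) := by
        rw [e5, one_pow, Int.cast_one, one_mul] at e1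
        have e7 := hbi 1 3 (-(((p : ℤ) * γ' : ℤ) : ℚ_[p])) (-(δ : ℚ_[p])) (α : ℚ_[p]) (β : ℚ_[p])
        rw [one_mul, one_mul, one_mul] at e7
        push_cast at e1 e2 e7 ⊢
        rw [e7, e1] at e2
        have h2a : ((3 : ℚ_[p]) ^ a) ≠ 0 := pow_ne_zero _ three_ne_zero
        exact mul_left_cancel₀ h2a e2
      rw [e3, one_mul, e6]
      ring)
    intro α β γ δ
    have := h0 α β γ δ
    linear_combination this
  have hone : ∀ x : ℤ_[p], ((((((1 : ℤ) * 1 - 0 * 0) ^ a : ℤ) : ℤ_[p]) * x : ℤ_[p]) : ℚ_[p]) =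
      (x : ℚ_[p]) := by
    intro x
    norm_num
  -- `ψ` is invariant under the square of `u`
  have h2 : ∀ v1 v2 w1 w2 : ℤ, (v1 ≠ 0 ∨ v2 ≠ 0) → (w1 ≠ 0 ∨ w2 ≠ 0) →
      ψ (p * (p * w1)) w2 - ψ (p * (p * v1)) v2 = ψ w1 w2 - ψ v1 v2 := by
    intro v1 v2 w1 w2 hv hw
    have nz : ∀ x y : ℤ, (x ≠ 0 ∨ y ≠ 0) → ((p : ℤ) * x ≠ 0 ∨ y ≠ 0) := by
      intro x y h
      rcases h with h | h
      · exact Or.inl (mul_ne_zero hp0 h)
      · exact Or.inr h
    have hv1 := nz _ _ hv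
    have hw1 := nz _ _ hw
    have a1 := hR (p * v1) v2 (p * w1) w2 hv1 hw1 1 0 0 1
    have a2 := hR v1 v2 w1 w2 hv hw 0 (-(p : ℚ_[p])⁻¹) p 0
    have a3 := (hRgT p hp a _ (hF v1 v2 w1 w2 hv hw).1).2.2.2.2 (-(p : ℚ_[p]))
      (-(p : ℚ_[p])⁻¹) 1 0 0 1
    have b1 := (hF (p * (p * v1)) v2 (p * (p * w1)) w2 (nz _ _ hv1) (nz _ _ hw1)).2 1 0 0 1
      (Or.inl ⟨by ring, dvd_zero _⟩)
    have b2 := (hF v1 v2 w1 w2 hv hw).2 1 0 0 1 (Or.inl ⟨by ring, dvd_zero _⟩)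
    rw [hone] at b1 b2
    have c1 : (p : ℚ_[p]) * -(p : ℚ_[p])⁻¹ = -1 := by field_simp
    have c2 : (p : ℚ_[p])⁻¹ * (p : ℚ_[p]) = 1 := by field_simp
    have c3 : (-(p : ℚ_[p]) * -(p : ℚ_[p])⁻¹) ^ a = 1 := by
      rw [neg_mul_neg, mul_inv_cancel₀ hpQ, one_pow]
    rw [mul_zero, mul_zero, neg_zero] at a1
    rw [c1, c2, neg_zero] at a2
    rw [c3, one_mul, mul_one, mul_zero, mul_zero, mul_one] at a3
    have key : F (p * (p * v1)) v2 (p * (p * w1)) w2 1 0 0 1 = F v1 v2 w1 w2 1 0 0 1 := by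
      rw [a1, a2, a3]
    simp only [one_mul, zero_mul, add_zero, zero_add, Int.cast_one, Int.cast_zero] at b1 b2
    rw [← b1, ← b2] at key
    exact Subtype.ext key
  -- so the reductions of `2 ψ` are constant
  have h3' : EqC ((2 : ℤ) • ψ) 0 := by
    refine const_of_red ((2 : ℤ) • ψ) fun M hM => ?_
    have hsym : SymH (p ^ 2) M M (redP M ψ) := by
      refine ⟨(hlev M hM).1, fun α β γ δ hd hb hc => (hlev M hM).2 α β γ δ hd ?_ ?_⟩
      · refine dvd_trans ?_ hb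
        push_cast
        rw [← pow_mul]
        exact pow_dvd_pow _ (by omega)
      · refine dvd_trans ?_ hc
        push_cast
        rw [← pow_mul]
        exact pow_dvd_pow _ (by omega)
    have h5 := hUI (p ^ 2) ?_ ?_ (ZMod (p ^ M)) _ M M (redP M ψ) hsym ?_
    · have e : redP M ((2 : ℤ) • ψ) = (2 : ℤ) • redP M ψ := by
        funext x y
        simp only [redP, Pi.smul_apply, map_zsmul]
      rw [e]
      exact h5
    · have := hp.out.two_le
      nlinarith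
    · intro h
      have := hp.out.two_le
      have h6 := Nat.Prime.dvd_of_dvd_pow Nat.prime_three h
      exact hp2 ((Nat.prime_dvd_prime_iff_eq Nat.prime_three hp.out).1 h6).symm
    · refine ⟨redP M ψ (p * (p * 1)) 0 - redP M ψ 1 0, fun x y hxy => ?_⟩
      have := h2 1 0 x y (Or.inl one_ne_zero) hxy
      have h4 := congrArg (PadicInt.toZModPow M) this
      rw [map_sub, map_sub] at h4
      simp only [act, redP]
      have e1 : ψ (((p ^ 2 : ℕ) : ℤ) * x + 0 * y) (0 * x + 1 * y) = ψ (p * (p * x)) y := by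
        congr 1
        · push_cast; ring
        · ring
      rw [e1]
      linear_combination h4
  have h3 : EqC ψ 0 := by
    obtain ⟨c, hc⟩ := h3'
    refine ⟨ψ 1 0, fun x y hxy => ?_⟩
    have e1 := hc x y hxy
    have e2 := hc 1 0 (Or.inl one_ne_zero)
    simp only [Pi.smul_apply, Pi.zero_apply, zero_add] at e1 e2 ⊢
    rw [← e2, zsmul_eq_mul, zsmul_eq_mul] at e1
    refine mul_left_cancel₀ ?_ e1
    norm_num
  -- conclusion
  obtain ⟨c, hc⟩ := h3
  refine ⟨G 1 0, fun x y hxy => ?_⟩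
  simp only [Pi.zero_apply, zero_add]
  have nz : (p : ℤ) * x ≠ 0 ∨ y ≠ 0 := by
    rcases hxy with h | h
    · exact Or.inl (mul_ne_zero hp0 h)
    · exact Or.inr h
  have e1 := hk' x y hxy
  have e2 := hk' 1 0 (Or.inl one_ne_zero)
  rw [hc _ _ nz, hc _ _ hxy] at e1
  rw [hc _ _ (Or.inl (by rw [mul_one]; exact hp0)), hc _ _ (Or.inl one_ne_zero)] at e2
  simp only [Pi.zero_apply, zero_add] at e1 e2
  have e3 : (κ : ℤ_[p]) * (G x y - G 1 0) = 0 := by
    rw [zsmul_eq_mul] at e1 e2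
    linear_combination e2 - e1
  rcases mul_eq_zero.1 e3 with h | h
  · exact absurd h (by exact_mod_cast hκ)
  · exact sub_eq_zero.1 h

end Pool.Agent.Helper99.TKV
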